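import Pool.Agent.E8helper48.PO.Step
import Pool.Agent.E8helper48.PO.Six

/-!
# Which path-order properties are never forced by the others: the indices five and six

A graph has property `P_i` if every two distinct vertices are joined by a path with exactly `i`
vertices. `J(n)` is the set of the indices `j ∈ {3, …, n}` which, for graphs of order `n`, are never
forced by a set of other indices.

* `5 ∈ J(n)` if and only if `n = 5` or `n ≥ 11`. For `6 ≤ n ≤ 10` already `P_3`, `P_4` and `P_n` force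
  `P_5`; for each `n ≥ 11` there is a graph of order `n` with exactly the properties
  `P_3, P_4, P_6, P_7, …, P_n` among `P_3, …, P_n`.
* `6 ∈ J(n)` if and only if `n = 6`. For `n ≥ 7` already `P_3` and `P_n` force `P_6`.
-/

set_option autoImplicit false

namespace Pool.Agent.Results.MP_ccc55c_co.IndicesFiveAndSixH48

open SimpleGraph

/-- Property `P_i`: every two distinct vertices are joined by a path with exactly `i` vertices. -/
def HasP {n : ℕ} (G : SimpleGraph (Fin n)) (i : ℕ) : Prop :=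
  ∀ x y : Fin n, x ≠ y → ∃ p : G.Walk x y, p.IsPath ∧ p.length + 1 = i

/-- The closure of `S`: the indices `j ∈ {2, …, n}` such that every graph of order `n` with `P_i` for all
`i ∈ S` has `P_j`. -/
def closure (n : ℕ) (S : Set ℕ) : Set ℕ :=
  {j | 2 ≤ j ∧ j ≤ n ∧ ∀ G : SimpleGraph (Fin n), (∀ i ∈ S, HasP G i) → HasP G j}

/-- `J(n)`: the indices `j ∈ {3, …, n}` which are in the closure of a set `S ⊆ {3, …, n}` only if they are
in `S`. -/
def J (n : ℕ) : Set ℕ :=
  {j | 3 ≤ j ∧ j ≤ n ∧ ∀ S : Set ℕ, S ⊆ Set.Icc 3 n → j ∈ closure n S → j ∈ S}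

theorem mem_J_of {n j : ℕ} (h1 : 3 ≤ j) (h2 : j ≤ n) (G : SimpleGraph (Fin n))
    (h3 : ∀ i, 3 ≤ i → i ≤ n → i ≠ j → HasP G i) (h4 : ¬ HasP G j) : j ∈ J n := by
  refine ⟨h1, h2, fun S hS hj => ?_⟩
  by_contra hjS
  refine h4 (hj.2.2 G fun i hi => h3 i (hS hi).1 (hS hi).2 ?_)
  rintro rfl
  exact hjS hi

/-- The graph of order `n ≥ 11`. -/
theorem gr_has {n : ℕ} (hn : 11 ≤ n) (i : ℕ) (h3 : 3 ≤ i) (hi : i ≤ n) (h5 : i ≠ 5) :
    HasP (Pool.Agent.E8helper48.PO.Gr n) i := by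
  intro x y hxy
  obtain ⟨l, h1, h2, h3', h4, h5', h6⟩ := Pool.Agent.E8helper48.PO.all hn x y x.2 y.2
    (fun h => hxy (Fin.ext h)) i h3 hi h5
  rcases l with _ | ⟨a, l⟩
  · simp at h5'
  · have ha : a = x := by simpa using h5'
    subst ha
    obtain ⟨p, hp⟩ := Pool.Agent.E8helper48.PO.walk_of l x x.2 y y.2 h3' h4 h6
    refine ⟨p, ?_, ?_⟩
    · rw [Walk.isPath_def]
      apply List.Nodup.of_map Fin.val
      rw [hp]; exact h2
    · rw [← Walk.length_support, ← List.length_map (f := Fin.val), hp, h1]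

theorem gr_not {n : ℕ} (hn : 11 ≤ n) : ¬ HasP (Pool.Agent.E8helper48.PO.Gr n) 5 := by
  intro h
  obtain ⟨p, hp, hl⟩ := h ⟨0, by omega⟩ ⟨1, by omega⟩ (by simp)
  have h2 : p.length = 4 := by omega
  have a1 := p.adj_getVert_succ (i := 0) (by omega)
  have a2 := p.adj_getVert_succ (i := 1) (by omega)
  have a3 := p.adj_getVert_succ (i := 2) (by omega)
  have a4 := p.adj_getVert_succ (i := 3) (by omega)
  have e : p.getVert 4 = ⟨1, by omega⟩ := by rw [← h2]; exact p.getVert_length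
  have e0 : p.getVert 0 = ⟨0, by omega⟩ := p.getVert_zero
  have ne : ∀ i j, i ≤ 4 → j ≤ 4 → i ≠ j → (p.getVert i : ℕ) ≠ p.getVert j := fun i j hi hj hij h =>
    hij (hp.getVert_injOn (show i ≤ p.length by omega) (show j ≤ p.length by omega) (Fin.ext h))
  have n13 := ne 1 3 (by omega) (by omega) (by omega)
  have n14 := ne 1 4 (by omega) (by omega) (by omega)
  have n30 := ne 3 0 (by omega) (by omega) (by omega)
  have n20 := ne 2 0 (by omega) (by omega) (by omega)
  have n24 := ne 2 4 (by omega) (by omega) (by omega)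
  rw [e] at n14 n24
  rw [e0] at n30 n20
  rw [show (0 + 1 : ℕ) = 1 from rfl, e0] at a1
  rw [show (3 + 1 : ℕ) = 4 from rfl, e] at a4
  simp only [show (1 + 1 : ℕ) = 2 from rfl, show (2 + 1 : ℕ) = 3 from rfl] at a2 a3
  generalize p.getVert 1 = x at *
  generalize p.getVert 2 = y at *
  generalize p.getVert 3 = z at *
  have a1' : Pool.Agent.E8helper48.PO.R 0 x := a1
  have a2' : Pool.Agent.E8helper48.PO.R x y := a2
  have a3' : Pool.Agent.E8helper48.PO.R z y := Pool.Agent.E8helper48.PO.R_symm a3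
  have a4' : Pool.Agent.E8helper48.PO.R 1 z := Pool.Agent.E8helper48.PO.R_symm a4
  simp only at n14 n24 n30 n20
  have hx : (x : ℕ) = 2 ∨ (x : ℕ) = 3 ∨ (x : ℕ) = 4 := by
    rcases a1' with h | h
    · have : min (x : ℕ) 10 ∈ [1, 2, 3, 4] := h
      simp only [List.mem_cons, List.not_mem_nil, or_false] at this
      omega
    · omega
  have hz : (z : ℕ) = 2 ∨ (z : ℕ) = 3 ∨ (z : ℕ) = 4 := by
    rcases a4' with h | h
    · have : min (z : ℕ) 10 ∈ [0, 2, 3, 4] := h
      simp only [List.mem_cons, List.not_mem_nil, or_false] at this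
      omega
    · omega
  have N2 : ∀ t : ℕ, Pool.Agent.E8helper48.PO.R 2 t → t = 0 ∨ t = 1 ∨ t = 4 ∨ t = 5 ∨ t = 6 := by
    rintro t (h | h)
    · have : min t 10 ∈ [0, 1, 4, 5, 6] := h
      simp only [List.mem_cons, List.not_mem_nil, or_false] at this
      omega
    · omega
  have N3 : ∀ t : ℕ, Pool.Agent.E8helper48.PO.R 3 t → t = 0 ∨ t = 1 ∨ 9 ≤ t := by
    rintro t (h | h)
    · have : min t 10 ∈ [0, 1, 9, 10] := h
      simp only [List.mem_cons, List.not_mem_nil, or_false] at this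
      omega
    · omega
  have N4 : ∀ t : ℕ, Pool.Agent.E8helper48.PO.R 4 t → t = 0 ∨ t = 1 ∨ t = 2 ∨ t = 7 ∨ t = 8 := by
    rintro t (h | h)
    · have : min t 10 ∈ [0, 1, 2, 7, 8] := h
      simp only [List.mem_cons, List.not_mem_nil, or_false] at this
      omega
    · omega
  rcases hx with hx | hx | hx <;> rcases hz with hz | hz | hz <;> rw [hx] at a2' <;> rw [hz] at a3' <;>
    first
      | omega
      | (have := N2 _ a2'; have := N3 _ a3'; omega)
      | (have := N2 _ a2'; have := N4 _ a3'; omega)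
      | (have := N3 _ a2'; have := N2 _ a3'; omega)
      | (have := N3 _ a2'; have := N4 _ a3'; omega)
      | (have := N4 _ a2'; have := N2 _ a3'; omega)
      | (have := N4 _ a2'; have := N3 _ a3'; omega)

/-- A vertex with only two neighbours. -/
theorem not_ham {n : ℕ} (hn : 4 ≤ n) (G : SimpleGraph (Fin n)) (z a b : Fin n) (hab : a ≠ b)
    (hza : z ≠ a) (hzb : z ≠ b) (hN : ∀ y, G.Adj z y → y = a ∨ y = b) : ¬ HasP G n := by
  intro h
  obtain ⟨w, w0, w1, hadj, hinj, hsurj⟩ := Pool.Agent.E8helper48.PO.ham (Fintype.card_fin n) h hab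
  obtain ⟨p, hp, hpz⟩ := hsurj z
  have p0 : p ≠ 0 := by rintro rfl; exact hza (hpz.symm.trans w0)
  have p1 : p ≠ n - 1 := by rintro rfl; exact hzb (hpz.symm.trans w1)
  have e1 := hadj (p - 1) (by omega)
  rw [show p - 1 + 1 = p by omega, hpz] at e1
  have e2 := hadj p (by omega)
  rw [hpz] at e2
  have I : ∀ i, i ≤ n - 1 → (w i = a → i = 0) ∧ (w i = b → i = n - 1) := fun i hi =>
    ⟨fun h => hinj i 0 hi (by omega) (h.trans w0.symm),
      fun h => hinj i (n - 1) hi le_rfl (h.trans w1.symm)⟩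
  obtain ⟨i1, i2⟩ := I (p - 1) (by omega)
  obtain ⟨j1, j2⟩ := I (p + 1) (by omega)
  rcases hN _ e1.symm with g | g <;> rcases hN _ e2 with g' | g' <;>
    (try have r1 := i1 g) <;> (try have r1 := i2 g) <;>
    (try have r2 := j1 g') <;> (try have r2 := j2 g') <;> omega

/-- complete graph with one vertex of degree two attached -/
def K (n : ℕ) : SimpleGraph (Fin n) where
  Adj x y := x ≠ y ∧ ((x : ℕ) + 1 = n → (y : ℕ) ≤ 1) ∧ ((y : ℕ) + 1 = n → (x : ℕ) ≤ 1)
  symm := ⟨fun _ _ h => ⟨h.1.symm, h.2.2, h.2.1⟩⟩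
  loopless := ⟨fun _ h => h.1 rfl⟩

instance (n : ℕ) : DecidableRel (K n).Adj := fun x y => by
  unfold K; infer_instance

theorem k3 {n : ℕ} {G : SimpleGraph (Fin n)}
    (h : ∀ x y : Fin n, x ≠ y → ∃ z, G.Adj x z ∧ G.Adj z y) : HasP G 3 := by
  intro x y hxy
  obtain ⟨z, h1, h2⟩ := h x y hxy
  refine ⟨Walk.cons h1 (Walk.cons h2 Walk.nil), ?_, rfl⟩
  rw [Walk.isPath_def]
  simp [h1.ne, h2.ne, hxy]

theorem k4 {n : ℕ} {G : SimpleGraph (Fin n)}
    (h : ∀ x y : Fin n, x ≠ y → ∃ a b, (G.Adj x a ∧ G.Adj a b ∧ G.Adj b y) ∧ a ≠ y ∧ b ≠ x) :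
    HasP G 4 := by
  intro x y hxy
  obtain ⟨a, b, ⟨h1, h2, h3⟩, h4, h5⟩ := h x y hxy
  refine ⟨Walk.cons h1 (Walk.cons h2 (Walk.cons h3 Walk.nil)), ?_, rfl⟩
  rw [Walk.isPath_def]
  simp [h1.ne, h2.ne, h3.ne, hxy, h4, h5.symm]

theorem k5 {n : ℕ} {G : SimpleGraph (Fin n)}
    (h : ∀ x y : Fin n, x ≠ y → ∃ a b c, (G.Adj x a ∧ G.Adj a b ∧ G.Adj b c ∧ G.Adj c y) ∧
      a ≠ y ∧ a ≠ c ∧ b ≠ x ∧ b ≠ y ∧ c ≠ x) : HasP G 5 := by
  intro x y hxy
  obtain ⟨a, b, c, ⟨h1, h2, h3, h4⟩, h5, h6, h7, h8, h9⟩ := h x y hxy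
  refine ⟨Walk.cons h1 (Walk.cons h2 (Walk.cons h3 (Walk.cons h4 Walk.nil))), ?_, rfl⟩
  rw [Walk.isPath_def]
  simp [h1.ne, h2.ne, h3.ne, h4.ne, hxy, h5, h6, h7.symm, h8, h9.symm]

theorem five_mem : 5 ∈ J 5 := by
  refine mem_J_of (by omega) le_rfl (K 5) ?_ ?_
  · intro i h1 h2 h3
    have : i = 3 ∨ i = 4 := by omega
    rcases this with rfl | rfl
    · exact k3 (by decide)
    · exact k4 (by decide)
  · refine not_ham (by omega) _ (4 : Fin 5) 0 1 (by decide) (by decide) (by decide) (by decide)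

theorem six_mem : 6 ∈ J 6 := by
  refine mem_J_of (by omega) le_rfl (K 6) ?_ ?_
  · intro i h1 h2 h3
    have : i = 3 ∨ i = 4 ∨ i = 5 := by omega
    rcases this with rfl | rfl | rfl
    · exact k3 (by decide)
    · exact k4 (by decide)
    · exact k5 (by decide +kernel)
  · refine not_ham (by omega) _ (5 : Fin 6) 0 1 (by decide) (by decide) (by decide) (by decide)

theorem small {n : ℕ} (h6 : 6 ≤ n) (h10 : n ≤ 10) : 5 ∈ closure n {3, 4, n} := by
  refine ⟨by omega, by omega, fun G hG => ?_⟩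
  intro u v huv
  by_contra hno
  have := Pool.Agent.E8helper48.PO.eleven (G := G) (Fintype.card_fin n) h6 (hG 3 (by simp))
    (hG 4 (by simp)) (hG n (by simp)) huv hno
  omega

theorem sixth {n : ℕ} (h7 : 7 ≤ n) : 6 ∈ closure n {3, n} :=
  ⟨by omega, by omega, fun G hG =>
    Pool.Agent.E8helper48.PO.six (G := G) (Fintype.card_fin n) h7 (hG 3 (by simp)) (hG n (by simp))⟩

/-- **Main result.** `5 ∈ J(n)` exactly for `n = 5` and `n ≥ 11`, and `6 ∈ J(n)` exactly for `n = 6`. Moreover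
`P_3`, `P_4` and `P_n` force `P_5` for `6 ≤ n ≤ 10`, and `P_3` and `P_n` force `P_6` for all `n ≥ 7`. -/
theorem result :
    (∀ n : ℕ, 5 ∈ J n ↔ n = 5 ∨ 11 ≤ n) ∧
    (∀ n : ℕ, 6 ∈ J n ↔ n = 6) ∧
    (∀ n : ℕ, 6 ≤ n → n ≤ 10 → 5 ∈ closure n {3, 4, n}) ∧
    (∀ n : ℕ, 7 ≤ n → 6 ∈ closure n {3, n}) := by
  refine ⟨fun n => ⟨fun h => ?_, ?_⟩, fun n => ⟨fun h => ?_, ?_⟩, fun n => small, fun n => sixth⟩
  · by_contra hne
    push Not at hne
    have h5 := h.2.1
    have := h.2.2 {3, 4, n} (by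
      rintro i (rfl | rfl | rfl)
      · exact ⟨le_rfl, by omega⟩
      · exact ⟨by omega, by omega⟩
      · exact ⟨by omega, le_rfl⟩) (small (by omega) (by omega))
    rcases this with h | h | h
    · omega
    · omega
    · exact hne.1 h.symm
  · rintro (rfl | h)
    · exact five_mem
    · exact mem_J_of (by omega) (by omega) _ (fun i h1 h2 h3 => gr_has h i h1 h2 h3) (gr_not h)
  · by_contra hne
    have h5 := h.2.1
    have := h.2.2 {3, n} (by
      rintro i (rfl | rfl)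
      · exact ⟨le_rfl, by omega⟩
      · exact ⟨by omega, le_rfl⟩) (sixth (by omega))
    rcases this with h | h
    · omega
    · exact hne h.symm
  · rintro rfl
    exact six_mem

end Pool.Agent.Results.MP_ccc55c_co.IndicesFiveAndSixH48
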