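import Pool.Agent.E8helper48.RX.Comm
import Pool.Agent.E8helper48.RW.Almost
import Pool.Agent.H340R2.LW

/-!
# Random expressions in `e`, `1/π`, `γ` and periods of one variable

`Forms δ` is the space of all linear combinations, with algebraic coefficients, of the integrals
of rational functions of one variable with algebraic coefficients over compact intervals with
algebraic end points, of all logarithms of algebraic numbers, and of finitely many arbitrary
complex numbers `δ 0, ..., δ (g - 1)`.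

(A) Products of `n` numbers taken from a finite family of non-zero complex numbers, two of which
have a transcendental ratio: the proportion of those in `(1 / y) Forms δ` is `O (n ^ (-1/4))`.
(B) Products of `n` factors `1`, `e`, `1/π`, `γ`.
(C) Words of length `n` in affine maps `y ↦ a i * y + b i`, two of which do not commute, one `a i`
being transcendental: the proportion of those whose value is in `Forms δ` is at most
`16 * 2 ^ g * exp (-c n ^ (1/3))`. Almost surely all but finitely many of the numbers obtained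
successively are outside `Forms δ`.
(D) The operations `y * e`, `y / π`, `y * γ`, `y + 1`, and the operations `y / π`, `y + 1`.
(E) Sums over a random subset of a finite family of numbers which contains `μ θ ^ k`, `k ≤ N`,
`θ` transcendental.
(F) Random polynomials in `e`, `1/π`, `γ` with coefficients `0, 1`.

Proof of (A). Change the letters `i`, `j` of a word into each other: the products obtained are
`ν τ ^ k`, `0 ≤ k ≤ K`, with binomial multiplicities, `τ = t i / t j`. By the inequality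
`d dim W ≤ dim (x_1 W + ... + x_d W) + d (d - 1) + d g` of the starting files (`W ⊆ Forms δ`, `x_k`
independent) an interval of length `N + 1` contains at most `2 √N + 1 + g` numbers `k` with
`ν τ ^ k ∈ Forms δ`; a set with this property and `N ~ √K` has binomial measure `O (K ^ (-1/4))`,
and `K` is a binomial random variable.
-/

set_option autoImplicit false

namespace Pool.Agent.Results.MP_725b61_nt.RandomExpressionsH48

open Filter MeasureTheory
open Pool.Agent.H301R2.SSE (QB mem_QB Lt Lt_alg Lt_log)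
open Pool.Agent.E8helper48.RW
open Pool.Agent.E8helper48.RX
open Pool.Agent.TH379.PER

/-- The result of applying to `x` the operations `f (w 0)`, `f (w 1)`, …, `f (w (n - 1))` in turn. -/
def run {ι X : Type} (f : ι → X → X) {n : ℕ} (w : Fin n → ι) (x : X) : X :=
  (List.ofFn w).foldl (fun y i => f i y) x

/-- The numbers `1`, `e`, `1/π`, `γ`. -/
noncomputable def num : Fin 4 → ℂ :=
  ![1, Complex.exp 1, 1 / (Real.pi : ℂ), (Real.eulerMascheroniConstant : ℂ)]

/-- The operations `y * e`, `y / π`, `y * γ`, `y + 1`. -/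
noncomputable def ops : Fin 4 → ℂ → ℂ :=
  ![fun y => y * Complex.exp 1, fun y => y / (Real.pi : ℂ),
    fun y => y * (Real.eulerMascheroniConstant : ℂ), fun y => y + 1]

theorem count_eq {ι : Type} [Fintype ι] (n : ℕ) (Q : List ι → Prop) :
    (Nat.card {w : Fin n → ι // Q (List.ofFn w)} : ℝ) = S n (fun l => ind (Q l)) := by
  classical
  rw [S_ofFn, Nat.card_eq_fintype_card, Fintype.card_subtype, Finset.card_filter, Nat.cast_sum]
  refine Finset.sum_congr rfl fun w _ => ?_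
  by_cases h : Q (List.ofFn w)
  · rw [if_pos h, ind_pos h, Nat.cast_one]
  · rw [if_neg h, ind_neg h, Nat.cast_zero]

theorem card_mono {α : Type} [Finite α] {P Q : α → Prop} (h : ∀ x, P x → Q x) :
    (Nat.card {x // P x} : ℝ) ≤ Nat.card {x // Q x} := by
  exact_mod_cast Nat.card_le_card_of_injective (fun x : {x // P x} => (⟨x.1, h x.1 x.2⟩ : {x // Q x}))
    fun x y hxy => Subtype.ext (by simpa using hxy)

/-- the constant -/
noncomputable def cq (q : ℕ) : ℝ := if 1 ≤ q then c0 ((q : ℝ) ^ 5) / 2 else 1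

theorem cq_pos (q : ℕ) : 0 < cq q := by
  unfold cq
  split_ifs with h
  · have h1 : (1 : ℝ) ≤ q := by exact_mod_cast h
    have := c0_pos (one_le_pow₀ (n := 5) h1)
    positivity
  · norm_num

instance spanFd {g : ℕ} (δ : Fin g → ℂ) : FiniteDimensional QB (Submodule.span QB (Set.range δ)) :=
  FiniteDimensional.span_of_finite QB (Set.finite_range _)

theorem span_le {g : ℕ} (δ : Fin g → ℂ) :
    Module.finrank QB (Submodule.span QB (Set.range δ)) ≤ g := by
  have h1 := finrank_range_le_card (R := QB) δ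
  rwa [Fintype.card_fin, Set.finrank] at h1

theorem PP_ofFn {ι : Type} [DecidableEq ι] (t : ι → ℂ) {n : ℕ} (w : Fin n → ι) :
    PP t (List.ofFn w) = ∏ k, t (w k) := by
  have h1 : ∀ l : List ι, PP t l = (l.map t).prod := by
    intro l
    induction l with
    | nil => rfl
    | cons u l ih => rw [PP, ih, List.map_cons, List.prod_cons]
  rw [h1, List.map_ofFn, List.prod_ofFn]
  rfl

theorem partA {ι : Type} [Fintype ι] (t : ι → ℂ) (ht : ∀ i, t i ≠ 0)
    (h : ∃ i j, Transcendental ℚ (t i / t j)) {g : ℕ} (δ : Fin g → ℂ) (y : ℂ) (hy : y ≠ 0) (n : ℕ) :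
    (Nat.card {w : Fin n → ι // y * ∏ k, t (w k) ∈ Forms δ} : ℝ) ≤
      (g + 3) * (Fintype.card ι + 6) * (Fintype.card ι : ℝ) ^ n / ((n : ℝ) + 1) ^ (1 / 4 : ℝ) := by
  classical
  obtain ⟨i, j, hij⟩ := h
  have h1 := products ht hij (Submodule.span QB (Set.range δ)) hy n
  have h2 : (Nat.card {w : Fin n → ι // y * ∏ k, t (w k) ∈ Forms δ} : ℝ) ≤
      S n (fun l => ind (y * PP t l ∈ Lt ⊔ Submodule.span QB (Set.range δ))) := by
    rw [← count_eq]
    refine card_mono fun w hw => ?_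
    rw [PP_ofFn]
    exact Forms_le δ hw
  refine h2.trans (h1.trans ?_)
  have h3 : (Module.finrank QB (Submodule.span QB (Set.range δ)) : ℝ) ≤ g := by
    exact_mod_cast span_le δ
  have h4 : (0 : ℝ) < ((n : ℝ) + 1) ^ (1 / 4 : ℝ) := by positivity
  apply div_le_div_of_nonneg_right _ h4.le
  apply mul_le_mul_of_nonneg_right _ (by positivity)
  apply mul_le_mul_of_nonneg_right _ (by positivity)
  linarith

theorem partC {ι : Type} [Fintype ι] (a b : ι → ℂ) (ha : ∀ i, a i ≠ 0)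
    (hk : ∃ k, Transcendental ℚ (a k)) (hc : ∃ i j, a i * b j + b i ≠ a j * b i + b j)
    {g : ℕ} (δ : Fin g → ℂ) (n : ℕ) (y : ℂ) :
    (Nat.card {w : Fin n → ι // run (fun i y => a i * y + b i) w y ∈ Forms δ} : ℝ) ≤
      16 * 2 ^ g * (Fintype.card ι : ℝ) ^ n *
        Real.exp (-(cq (Fintype.card ι) * (n : ℝ) ^ (1 / 3 : ℝ))) := by
  classical
  have hc' : ∃ i j, (a i - 1) * b j ≠ (a j - 1) * b i := by
    obtain ⟨i, j, hij⟩ := hc
    refine ⟨i, j, fun h => hij ?_⟩
    linear_combination h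
  have h1 := affine a b ha hk hc' (Submodule.span QB (Set.range δ)) n y
  have hq : 1 ≤ Fintype.card ι := Fintype.card_pos_iff.2 ⟨hk.choose⟩
  unfold cq
  rw [if_pos hq]
  have h2 : (Nat.card {w : Fin n → ι // run (fun i y => a i * y + b i) w y ∈ Forms δ} : ℝ) ≤
      S n (fun l => ind (val a b l y ∈ Lt ⊔ Submodule.span QB (Set.range δ))) := by
    rw [← count_eq]
    refine card_mono fun w hw => ?_
    rw [val_foldl]
    exact Forms_le δ hw
  refine h2.trans (h1.trans ?_)
  have h3 : (2 : ℝ) ^ Module.finrank QB (Submodule.span QB (Set.range δ)) ≤ 2 ^ g :=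
    pow_le_pow_right₀ (by norm_num) (span_le δ)
  apply mul_le_mul_of_nonneg_right _ (Real.exp_pos _).le
  apply mul_le_mul_of_nonneg_right _ (by positivity)
  linarith

theorem partE {J : Type} [Fintype J] (z : J → ℂ) {θ μ : ℂ} (hθ : Transcendental ℚ θ) (hμ : μ ≠ 0)
    (N : ℕ) (hz : ∀ k ≤ N, ∃ j, z j = μ * θ ^ k) {g : ℕ} (δ : Fin g → ℂ) (y : ℂ) :
    (Nat.card {r : Finset J // y + ∑ j ∈ r, z j ∈ Forms δ} : ℝ) ≤
      2 ^ Fintype.card J * (2 : ℝ) ^ (2 * √(N : ℝ) + g - N) := by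
  classical
  have h1 := subsums z hθ hμ N hz (Submodule.span QB (Set.range δ)) y
  refine (card_mono fun r hr => Forms_le δ hr).trans (h1.trans ?_)
  have h3 : (Module.finrank QB (Submodule.span QB (Set.range δ)) : ℝ) ≤ g := by
    exact_mod_cast span_le δ
  apply mul_le_mul_of_nonneg_left _ (by positivity)
  apply Real.rpow_le_rpow_of_exponent_le (by norm_num)
  linarith

theorem e_transc : Transcendental ℚ (Complex.exp 1) :=
  Pool.Agent.H340R2.LW.transcendental_exp_one_complex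

theorem pi_transc : Transcendental ℚ (1 / (Real.pi : ℂ)) := by
  intro h
  have h1 := h.inv
  rw [one_div, inv_inv] at h1
  exact Pool.Agent.H340R2.LW.transcendental_pi_complex h1

theorem euler_ne : (Real.eulerMascheroniConstant : ℂ) ≠ 0 := by
  have := Real.one_half_lt_eulerMascheroniConstant
  have h1 : Real.eulerMascheroniConstant ≠ 0 := by linarith
  exact_mod_cast h1

theorem pi_ne : (Real.pi : ℂ) ≠ 0 := by exact_mod_cast Real.pi_ne_zero

theorem num_ne (i : Fin 4) : num i ≠ 0 := by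
  fin_cases i
  · simp [num]
  · simp [num]
  · simp [num, Real.pi_ne_zero]
  · simpa [num] using euler_ne

theorem ops_eq : ops = fun i y => (![Complex.exp 1, 1 / (Real.pi : ℂ),
    (Real.eulerMascheroniConstant : ℂ), 1] : Fin 4 → ℂ) i * y + (![0, 0, 0, 1] : Fin 4 → ℂ) i := by
  funext i y
  fin_cases i
  · simp [ops]; ring
  · simp [ops]; ring
  · simp [ops]; ring
  · simp [ops]

theorem two_eq : (![fun y => y / (Real.pi : ℂ), fun y => y + 1] : Fin 2 → ℂ → ℂ) =
    fun i y => (![1 / (Real.pi : ℂ), 1] : Fin 2 → ℂ) i * y + (![0, 1] : Fin 2 → ℂ) i := by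
  funext i y
  fin_cases i
  · simp; ring
  · simp

theorem partD {g : ℕ} (δ : Fin g → ℂ) (n : ℕ) (y : ℂ) :
    (Nat.card {w : Fin n → Fin 4 // run ops w y ∈ Forms δ} : ℝ) ≤
      16 * 2 ^ g * 4 ^ n * Real.exp (-(cq 4 * (n : ℝ) ^ (1 / 3 : ℝ))) := by
  have h1 := partC (![Complex.exp 1, 1 / (Real.pi : ℂ),
    (Real.eulerMascheroniConstant : ℂ), 1] : Fin 4 → ℂ) (![0, 0, 0, 1] : Fin 4 → ℂ) (by
      intro i
      fin_cases i
      · simp
      · simp [Real.pi_ne_zero]
      · simpa using euler_ne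
      · simp) ⟨0, by simpa using e_transc⟩ ⟨0, 3, by
        simp only [Matrix.cons_val_zero, Matrix.cons_val, mul_one, add_zero, mul_zero, zero_add]
        intro h
        exact e_transc (by rw [h]; exact isAlgebraic_one)⟩ δ n y
  rw [← ops_eq, Fintype.card_fin] at h1
  exact_mod_cast h1

theorem partD' {g : ℕ} (δ : Fin g → ℂ) (n : ℕ) (y : ℂ) :
    (Nat.card {w : Fin n → Fin 2 //
      run ![fun y => y / (Real.pi : ℂ), fun y => y + 1] w y ∈ Forms δ} : ℝ) ≤
      16 * 2 ^ g * 2 ^ n * Real.exp (-(cq 2 * (n : ℝ) ^ (1 / 3 : ℝ))) := by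
  have h1 := partC (![1 / (Real.pi : ℂ), 1] : Fin 2 → ℂ) (![0, 1] : Fin 2 → ℂ) (by
      intro i
      fin_cases i
      · simp [Real.pi_ne_zero]
      · simp) ⟨0, by simpa using pi_transc⟩ ⟨0, 1, by
        simp only [Matrix.cons_val_zero, Matrix.cons_val_one, mul_one, add_zero, mul_zero, zero_add]
        intro h
        exact pi_transc (by rw [h]; exact isAlgebraic_one)⟩ δ n y
  rw [← two_eq, Fintype.card_fin] at h1
  exact_mod_cast h1

theorem result :
    -- (A) random products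
    (∀ (ι : Type) [Fintype ι] (t : ι → ℂ), (∀ i, t i ≠ 0) →
      (∃ i j, Transcendental ℚ (t i / t j)) →
      ∀ (g : ℕ) (δ : Fin g → ℂ) (y : ℂ), y ≠ 0 → ∀ n : ℕ,
        (Nat.card {w : Fin n → ι // y * ∏ k, t (w k) ∈ Forms δ} : ℝ) ≤
          (g + 3) * (Fintype.card ι + 6) * (Fintype.card ι : ℝ) ^ n /
            ((n : ℝ) + 1) ^ (1 / 4 : ℝ)) ∧
    -- (B) random products of the numbers `1`, `e`, `1/π`, `γ`
    (∀ (g : ℕ) (δ : Fin g → ℂ) (y : ℂ), y ≠ 0 → ∀ n : ℕ,
      (Nat.card {w : Fin n → Fin 4 // y * ∏ k, num (w k) ∈ Forms δ} : ℝ) ≤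
        10 * (g + 3) * 4 ^ n / ((n : ℝ) + 1) ^ (1 / 4 : ℝ)) ∧
    -- (C) random words of affine maps
    (∀ q : ℕ, ∃ c > 0, ∀ (ι : Type) [Fintype ι] (a b : ι → ℂ), Fintype.card ι = q →
      (∀ i, a i ≠ 0) → (∃ k, Transcendental ℚ (a k)) →
      (∃ i j, a i * b j + b i ≠ a j * b i + b j) →
      ∀ (g : ℕ) (δ : Fin g → ℂ) (n : ℕ) (y : ℂ),
        (Nat.card {w : Fin n → ι // run (fun i y => a i * y + b i) w y ∈ Forms δ} : ℝ) ≤
          16 * 2 ^ g * (q : ℝ) ^ n * Real.exp (-(c * (n : ℝ) ^ (1 / 3 : ℝ)))) ∧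
    (∀ (ι : Type) [Fintype ι] [Nonempty ι] [MeasurableSpace ι] [MeasurableSingletonClass ι]
      (a b : ι → ℂ), (∀ i, a i ≠ 0) → (∃ k, Transcendental ℚ (a k)) →
      (∃ i j, a i * b j + b i ≠ a j * b i + b j) → ∀ (g : ℕ) (δ : Fin g → ℂ) (y : ℂ),
        ∀ᵐ ω ∂(Measure.infinitePi fun _ : ℕ => (PMF.uniformOfFintype ι).toMeasure),
          ∀ᶠ n : ℕ in atTop,
            run (fun i y => a i * y + b i) (fun k : Fin n => ω k) y ∉ Forms δ) ∧
    -- (D) the operations `y * e`, `y / π`, `y * γ`, `y + 1`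
    (∃ c > 0, ∀ (g : ℕ) (δ : Fin g → ℂ) (n : ℕ) (y : ℂ),
      (Nat.card {w : Fin n → Fin 4 // run ops w y ∈ Forms δ} : ℝ) ≤
        16 * 2 ^ g * 4 ^ n * Real.exp (-(c * (n : ℝ) ^ (1 / 3 : ℝ))) ∧
      (Nat.card {w : Fin n → Fin 2 //
        run ![fun y => y / (Real.pi : ℂ), fun y => y + 1] w y ∈ Forms δ} : ℝ) ≤
        16 * 2 ^ g * 2 ^ n * Real.exp (-(c * (n : ℝ) ^ (1 / 3 : ℝ)))) ∧
    (∀ (g : ℕ) (δ : Fin g → ℂ) (y : ℂ),
      ∀ᵐ ω ∂(Measure.infinitePi fun _ : ℕ => (PMF.uniformOfFintype (Fin 4)).toMeasure),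
        ∀ᶠ n : ℕ in atTop, run ops (fun k : Fin n => ω k) y ∉ Forms δ) ∧
    -- (E) random subsums
    (∀ (J : Type) [Fintype J] (z : J → ℂ) (θ μ : ℂ), Transcendental ℚ θ → μ ≠ 0 →
      ∀ N : ℕ, (∀ k ≤ N, ∃ j, z j = μ * θ ^ k) → ∀ (g : ℕ) (δ : Fin g → ℂ) (y : ℂ),
        (Nat.card {r : Finset J // y + ∑ j ∈ r, z j ∈ Forms δ} : ℝ) ≤
          2 ^ Fintype.card J * (2 : ℝ) ^ (2 * √(N : ℝ) + g - N)) ∧
    -- (F) random polynomials in the three numbers
    (∀ (N g : ℕ) (δ : Fin g → ℂ) (y : ℂ),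
      (Nat.card {r : Finset (Fin (N + 1) × Fin (N + 1) × Fin (N + 1)) // y + ∑ j ∈ r,
        Complex.exp 1 ^ (j.1 : ℕ) * (1 / (Real.pi : ℂ)) ^ (j.2.1 : ℕ) *
          (Real.eulerMascheroniConstant : ℂ) ^ (j.2.2 : ℕ) ∈ Forms δ} : ℝ) ≤
        2 ^ ((N + 1) ^ 3) * (2 : ℝ) ^ (2 * √(N : ℝ) + g - N)) := by
  refine ⟨?_, ?_, ?_, ?_, ?_, ?_, ?_, ?_⟩
  · intro ι _ t ht h g δ y hy n
    exact partA t ht h δ y hy n
  · intro g δ y hy n
    have h1 := partA num num_ne ⟨1, 0, by simpa [num] using e_transc⟩ δ y hy n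
    rw [Fintype.card_fin] at h1
    have h2 : ((g : ℝ) + 3) * (((4 : ℕ) : ℝ) + 6) * ((4 : ℕ) : ℝ) ^ n / ((n : ℝ) + 1) ^ (1 / 4 : ℝ) =
        10 * (g + 3) * 4 ^ n / ((n : ℝ) + 1) ^ (1 / 4 : ℝ) := by
      push_cast
      ring
    rw [h2] at h1
    exact h1
  · intro q
    refine ⟨cq q, cq_pos q, ?_⟩
    intro ι _ a b hq ha hk hc g δ n y
    subst hq
    exact partC a b ha hk hc δ n y
  · intro ι _ _ _ _ a b ha hk hc g δ y
    exact almost (fun n w => run (fun i y => a i * y + b i) w y ∈ Forms δ)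
      (cq_pos (Fintype.card ι)) (by positivity : (0 : ℝ) ≤ 16 * 2 ^ g)
      (fun n => partC a b ha hk hc δ n y)
  · refine ⟨min (cq 4) (cq 2), lt_min (cq_pos 4) (cq_pos 2), fun g δ n y => ?_⟩
    have hmono : ∀ (k : ℕ) (A : ℝ), 0 ≤ A → min (cq 4) (cq 2) ≤ cq k →
        A * Real.exp (-(cq k * (n : ℝ) ^ (1 / 3 : ℝ))) ≤
          A * Real.exp (-(min (cq 4) (cq 2) * (n : ℝ) ^ (1 / 3 : ℝ))) := by
      intro k A hA hk
      apply mul_le_mul_of_nonneg_left _ hA
      apply Real.exp_le_exp.2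
      have := mul_le_mul_of_nonneg_right hk (show 0 ≤ (n : ℝ) ^ (1 / 3 : ℝ) by positivity)
      linarith
    exact ⟨(partD δ n y).trans (hmono 4 _ (by positivity) (min_le_left _ _)),
      (partD' δ n y).trans (hmono 2 _ (by positivity) (min_le_right _ _))⟩
  · intro g δ y
    refine almost (fun n w => run ops w y ∈ Forms δ) (cq_pos 4)
      (by positivity : (0 : ℝ) ≤ 16 * 2 ^ g) (fun n => ?_)
    have h1 := partD δ n y
    rw [Fintype.card_fin]
    exact_mod_cast h1
  · intro J _ z θ μ hθ hμ N hz g δ y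
    exact partE z hθ hμ N hz δ y
  · intro N g δ y
    have h1 := partE (J := Fin (N + 1) × Fin (N + 1) × Fin (N + 1))
      (fun j => Complex.exp 1 ^ (j.1 : ℕ) * (1 / (Real.pi : ℂ)) ^ (j.2.1 : ℕ) *
          (Real.eulerMascheroniConstant : ℂ) ^ (j.2.2 : ℕ)) (θ := Complex.exp 1) (μ := 1)
      e_transc one_ne_zero N (fun k hk => ⟨(⟨k, by omega⟩, ⟨0, by omega⟩, ⟨0, by omega⟩), by simp⟩)
      δ y
    have h2 : Fintype.card (Fin (N + 1) × Fin (N + 1) × Fin (N + 1)) = (N + 1) ^ 3 := by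
      rw [Fintype.card_prod, Fintype.card_prod, Fintype.card_fin]; ring
    rw [h2] at h1
    exact h1

end Pool.Agent.Results.MP_725b61_nt.RandomExpressionsH48
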